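import Pool.Agent.Q156.DM.Johnson

/-!
# The Johnson graph `J(16, 6)` as a family of sign vectors with orthogonal coordinates
-/

set_option autoImplicit false

namespace Q156.DM

open Finset

/-- the 6-element subsets of a 16-element set -/
abbrev W6 := {S : Finset (Fin 16) // S.card = 6}

/-- sign vector of a set -/
noncomputable def τ (S : W6) (i : Fin 16) : ℝ := if i ∈ S.1 then -1 else 1

theorem card_W6 : Fintype.card W6 = 8008 := by
  rw [Fintype.card_finset_len, Fintype.card_fin]
  decide +kernel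

theorem τ_row (S : W6) : ∑ i, τ S i = 4 := by
  have h : ∀ i, τ S i = 1 - 2 * (if i ∈ S.1 then (1 : ℝ) else 0) := by
    intro i
    unfold τ
    split_ifs <;> norm_num
  simp_rw [h]
  rw [Finset.sum_sub_distrib, ← Finset.mul_sum, Finset.sum_ite_mem, Finset.univ_inter]
  simp only [Finset.sum_const, Finset.card_univ, Fintype.card_fin, S.2, nsmul_eq_mul]
  norm_num

theorem τ_sq (S : W6) (i : Fin 16) : τ S i * τ S i = 1 := by
  unfold τ
  split_ifs <;> norm_num

/-- action of a permutation -/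
def act (π : Equiv.Perm (Fin 16)) : W6 ≃ W6 :=
  (Equiv.finsetCongr π).subtypeEquiv (by intro S; simp)

theorem τ_act (π : Equiv.Perm (Fin 16)) (S : W6) (i : Fin 16) : τ (act π S) (π i) = τ S i := by
  have : π i ∈ (act π S).1 ↔ i ∈ S.1 := by
    simp [act, Equiv.finsetCongr]
  unfold τ
  simp only [this]

theorem col_eq (i j : Fin 16) : ∑ S, τ S i = ∑ S, τ S j := by
  rw [← Equiv.sum_comp (act (Equiv.swap i j)) (fun S => τ S j)]
  refine Finset.sum_congr rfl fun S _ => ?_
  have := τ_act (Equiv.swap i j) S i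
  rw [Equiv.swap_apply_left] at this
  exact this.symm

theorem col_sum (i : Fin 16) : ∑ S, τ S i = 2002 := by
  have h1 : ∑ j : Fin 16, ∑ S, τ S j = 4 * 8008 := by
    rw [Finset.sum_comm]
    simp_rw [τ_row]
    rw [Finset.sum_const, Finset.card_univ, card_W6, nsmul_eq_mul]
    norm_num
  have h2 : ∑ j : Fin 16, ∑ S, τ S j = 16 * ∑ S, τ S i := by
    rw [Finset.sum_congr rfl fun j _ => col_eq j i, Finset.sum_const, Finset.card_univ,
      Fintype.card_fin, nsmul_eq_mul]
    norm_num
  linarith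

theorem gram_eq (i j j' : Fin 16) (h : j ≠ i) (h' : j' ≠ i) :
    ∑ S, τ S i * τ S j = ∑ S, τ S i * τ S j' := by
  rw [← Equiv.sum_comp (act (Equiv.swap j j')) (fun S => τ S i * τ S j')]
  refine Finset.sum_congr rfl fun S _ => ?_
  have h1 := τ_act (Equiv.swap j j') S j
  rw [Equiv.swap_apply_left] at h1
  have h2 := τ_act (Equiv.swap j j') S i
  rw [Equiv.swap_apply_of_ne_of_ne h.symm h'.symm] at h2
  rw [h1, h2]

theorem gram (i j : Fin 16) : ∑ S, τ S i * τ S j = if i = j then 8008 else 0 := by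
  have hd : ∀ i, ∑ S, τ S i * τ S i = 8008 := by
    intro i
    simp_rw [τ_sq]
    rw [Finset.sum_const, Finset.card_univ, card_W6, nsmul_eq_mul]
    norm_num
  by_cases hij : i = j
  · subst hij
    rw [if_pos rfl, hd]
  · rw [if_neg hij]
    have h1 : ∑ l : Fin 16, ∑ S, τ S i * τ S l = 4 * 2002 := by
      rw [Finset.sum_comm]
      have : ∀ S : W6, ∑ l, τ S i * τ S l = 4 * τ S i := by
        intro S
        rw [← Finset.mul_sum, τ_row]
        ring
      simp_rw [this]
      rw [← Finset.mul_sum, col_sum]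
    have h2 : ∑ l : Fin 16, ∑ S, τ S i * τ S l
        = ∑ S, τ S i * τ S i + ∑ l ∈ Finset.univ.erase i, ∑ S, τ S i * τ S l :=
      (Finset.add_sum_erase _ _ (Finset.mem_univ i)).symm
    have h3 : ∑ l ∈ Finset.univ.erase i, ∑ S, τ S i * τ S l = 15 * ∑ S, τ S i * τ S j := by
      rw [Finset.sum_congr rfl fun l hl => gram_eq i l j (Finset.ne_of_mem_erase hl)
        (fun h => hij h.symm), Finset.sum_const, Finset.card_erase_of_mem (Finset.mem_univ i),
        Finset.card_univ, Fintype.card_fin, nsmul_eq_mul]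
      norm_num
    rw [hd, h3, h1] at h2
    linarith

theorem τ_dist (S T : W6) :
    (((johnson 16 6).dist S T : ℕ) : ℝ) = 4 - 1 / 4 * ∑ i, τ S i * τ T i := by
  rw [jdist.2]
  have h : ∀ i, τ S i * τ T i = 1 - 2 * (if i ∈ S.1 \ T.1 then (1 : ℝ) else 0)
      - 2 * (if i ∈ T.1 \ S.1 then (1 : ℝ) else 0) := by
    intro i
    unfold τ
    by_cases h1 : i ∈ S.1 <;> by_cases h2 : i ∈ T.1 <;> simp [h1, h2] <;> norm_num
  simp_rw [h]
  rw [Finset.sum_sub_distrib, Finset.sum_sub_distrib, ← Finset.mul_sum, ← Finset.mul_sum,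
    Finset.sum_ite_mem, Finset.sum_ite_mem, Finset.univ_inter, Finset.univ_inter]
  simp only [Finset.sum_const, Finset.card_univ, Fintype.card_fin, nsmul_eq_mul]
  have := sdiff_card_comm S T
  rw [← this]
  push_cast
  ring

end Q156.DM
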