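import Pool.Agent.Q156.DM.Spec

/-!
# Johnson graphs are distance-regular
-/

set_option autoImplicit false

namespace Q156.DM

open Finset

variable {n k : ℕ}

theorem jadj_iff (S T : {S : Finset (Fin n) // S.card = k}) :
    (johnson n k).Adj S T ↔ (S.1 \ T.1).card = 1 := by
  have h : (S.1 \ T.1).card + (S.1 ∩ T.1).card = S.1.card := Finset.card_sdiff_add_card_inter _ _
  have hS := S.2
  constructor
  · rintro ⟨-, h2⟩
    omega
  · intro h1
    refine ⟨?_, by omega⟩
    rintro rfl
    simp at h1

theorem sdiff_card_comm (S T : {S : Finset (Fin n) // S.card = k}) :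
    (S.1 \ T.1).card = (T.1 \ S.1).card := by
  have h : (S.1 \ T.1).card + (S.1 ∩ T.1).card = S.1.card := Finset.card_sdiff_add_card_inter _ _
  have h' : (T.1 \ S.1).card + (T.1 ∩ S.1).card = T.1.card := Finset.card_sdiff_add_card_inter _ _
  rw [Finset.inter_comm] at h'
  have hS := S.2
  have hT := T.2
  omega

theorem swap_card {y : Finset (Fin n)} {t s : Fin n} (ht : t ∈ y) (hs : s ∉ y) :
    (insert s (y.erase t)).card = y.card := by
  rw [Finset.card_insert_of_notMem, Finset.card_erase_of_mem ht]
  · have : 0 < y.card := Finset.card_pos.2 ⟨t, ht⟩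
    omega
  · intro h
    exact hs (Finset.mem_of_mem_erase h)

/-- effect of a swap on the distance -/
theorem swap_sdiff (x : Finset (Fin n)) {y : Finset (Fin n)} {t s : Fin n} (ht : t ∈ y)
    (hs : s ∉ y) :
    (x \ insert s (y.erase t)).card + (if s ∈ x then 1 else 0)
      = (x \ y).card + (if t ∈ x then 1 else 0) := by
  have hst : s ≠ t := fun h => hs (h ▸ ht)
  have e1 : (x \ y.erase t).card = (x \ y).card + (if t ∈ x then 1 else 0) := by
    by_cases htx : t ∈ x
    · rw [if_pos htx]
      have : x \ y.erase t = insert t (x \ y) := by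
        ext a
        simp only [Finset.mem_sdiff, Finset.mem_erase, Finset.mem_insert, not_and, ne_eq]
        by_cases hat : a = t
        · subst hat; simp [htx]
        · simp [hat]
      rw [this, Finset.card_insert_of_notMem]
      simp [ht]
    · rw [if_neg htx]
      have : x \ y.erase t = x \ y := by
        ext a
        simp only [Finset.mem_sdiff, Finset.mem_erase, not_and, ne_eq]
        by_cases hat : a = t
        · subst hat; simp [htx]
        · simp [hat]
      rw [this]
      rfl
  rw [← e1]
  by_cases hsx : s ∈ x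
  · rw [if_pos hsx]
    have h1 : x \ insert s (y.erase t) = (x \ y.erase t).erase s := by
      ext a
      simp only [Finset.mem_sdiff, Finset.mem_erase, Finset.mem_insert, not_or, not_and, ne_eq]
      tauto
    rw [h1, Finset.card_erase_add_one]
    simp only [Finset.mem_sdiff, Finset.mem_erase, not_and]
    exact ⟨hsx, fun _ => hs⟩
  · rw [if_neg hsx]
    have h1 : x \ insert s (y.erase t) = (x \ y.erase t) := by
      ext a
      simp only [Finset.mem_sdiff, Finset.mem_erase, Finset.mem_insert, not_or, not_and, ne_eq]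
      constructor
      · rintro ⟨h1, h2, h3⟩
        exact ⟨h1, h3⟩
      · rintro ⟨h1, h3⟩
        exact ⟨h1, fun e => hsx (e ▸ h1), h3⟩
    rw [h1]
    rfl

theorem jdist : (∀ u v, (johnson n k).Reachable u v) ∧
    ∀ u v, (johnson n k).dist u v = (u.1 \ v.1).card := by
  apply dist_of (johnson n k) (fun u v => (u.1 \ v.1).card)
  · intro u; simp
  · intro u v w h
    rw [jadj_iff] at h
    have : u.1 \ w.1 ⊆ (u.1 \ v.1) ∪ (v.1 \ w.1) := by
      intro a
      simp only [Finset.mem_sdiff, Finset.mem_union]
      tauto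
    have := (Finset.card_le_card this).trans (Finset.card_union_le _ _)
    omega
  · intro u v huv
    have hne : (u.1 \ v.1).Nonempty := by
      rw [Finset.nonempty_iff_ne_empty]
      intro h
      have h1 : u.1 ⊆ v.1 := Finset.sdiff_eq_empty_iff_subset.1 h
      exact huv (Subtype.ext (Finset.eq_of_subset_of_card_le h1 (by rw [u.2, v.2])))
    have hne' : (v.1 \ u.1).Nonempty := by
      rw [← Finset.card_pos, ← sdiff_card_comm, Finset.card_pos]
      exact hne
    obtain ⟨s, hs⟩ := hne
    obtain ⟨t, ht⟩ := hne'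
    rw [Finset.mem_sdiff] at hs ht
    refine ⟨⟨insert s (v.1.erase t), by rw [swap_card ht.1 hs.2, v.2]⟩, ?_, ?_⟩
    · rw [jadj_iff, sdiff_card_comm]
      have := swap_sdiff v.1 ht.1 hs.2
      simp only [ht.1, hs.2, if_true, if_false, Finset.sdiff_self, Finset.card_empty] at this
      simpa using this
    · have := swap_sdiff u.1 ht.1 hs.2
      simp only [hs.1, ht.2, if_true, if_false] at this
      simpa using this

/-- number of neighbours obtained by swapping an element of `A` for an element of `B` -/
theorem swap_count (y : {S : Finset (Fin n) // S.card = k}) (A B : Finset (Fin n)) (hA : A ⊆ y.1)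
    (hB : Disjoint B y.1) :
    {z : {S : Finset (Fin n) // S.card = k} | ∃ t ∈ A, ∃ s ∈ B,
      z.1 = insert s (y.1.erase t)}.ncard = A.card * B.card := by
  rw [← Set.ncard_image_of_injective _ Subtype.val_injective]
  have : (Subtype.val '' {z : {S : Finset (Fin n) // S.card = k} | ∃ t ∈ A, ∃ s ∈ B,
      z.1 = insert s (y.1.erase t)}) =
      (((A ×ˢ B).image fun p => insert p.2 (y.1.erase p.1) : Finset (Finset (Fin n))) :
        Set (Finset (Fin n))) := by
    ext w
    simp only [Set.mem_image, Set.mem_ofPred_eq, Finset.coe_image, Finset.mem_coe,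
      Finset.mem_product, Prod.exists]
    constructor
    · rintro ⟨z, ⟨t, ht, s, hs, hz⟩, rfl⟩
      exact ⟨t, s, ⟨ht, hs⟩, hz.symm⟩
    · rintro ⟨t, s, ⟨ht, hs⟩, rfl⟩
      exact ⟨⟨_, by rw [swap_card (hA ht) (Finset.disjoint_left.1 hB hs), y.2]⟩,
        ⟨t, ht, s, hs, rfl⟩, rfl⟩
  rw [this, Set.ncard_coe_finset, Finset.card_image_of_injOn, Finset.card_product]
  rintro ⟨t, s⟩ h ⟨t', s'⟩ h' he
  simp only [Finset.coe_product, Set.mem_prod, Finset.mem_coe] at h h'
  simp only at he
  have hsy := Finset.disjoint_left.1 hB h.2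
  have hsy' := Finset.disjoint_left.1 hB h'.2
  have hty := hA h.1
  have hty' := hA h'.1
  have e1 : s = s' := by
    have : s ∈ insert s' (y.1.erase t') := he ▸ Finset.mem_insert_self _ _
    rw [Finset.mem_insert, Finset.mem_erase] at this
    rcases this with h | h
    · exact h
    · exact absurd h.2 hsy
  have e2 : t = t' := by
    by_contra hne
    have : t ∈ insert s' (y.1.erase t') := by
      rw [Finset.mem_insert, Finset.mem_erase]
      exact Or.inr ⟨hne, hty⟩
    rw [← he, Finset.mem_insert, Finset.mem_erase] at this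
    rcases this with h | h
    · exact hsy (h ▸ hty)
    · exact h.1 rfl
  rw [e1, e2]

theorem jnbr (y z : {S : Finset (Fin n) // S.card = k}) (h : (johnson n k).Adj y z) :
    ∃ t ∈ y.1, ∃ s, s ∉ y.1 ∧ z.1 = insert s (y.1.erase t) := by
  rw [jadj_iff] at h
  have h' := sdiff_card_comm y z
  rw [h] at h'
  obtain ⟨t, ht⟩ := Finset.card_eq_one.1 h
  obtain ⟨s, hs⟩ := Finset.card_eq_one.1 h'.symm
  have ht1 : t ∈ y.1 \ z.1 := by rw [ht]; simp
  have hs1 : s ∈ z.1 \ y.1 := by rw [hs]; simp
  rw [Finset.mem_sdiff] at ht1 hs1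
  refine ⟨t, ht1.1, s, hs1.2, ?_⟩
  ext a
  rw [Finset.mem_insert, Finset.mem_erase]
  have e1 : a ∈ y.1 \ z.1 ↔ a = t := by rw [ht]; simp
  have e2 : a ∈ z.1 \ y.1 ↔ a = s := by rw [hs]; simp
  rw [Finset.mem_sdiff] at e1 e2
  constructor
  · intro ha
    by_cases hay : a ∈ y.1
    · right
      refine ⟨?_, hay⟩
      rintro rfl
      exact ht1.2 ha
    · left
      exact e2.1 ⟨ha, hay⟩
  · rintro (rfl | ⟨h1, h2⟩)
    · exact hs1.1
    · by_contra h3
      exact h1 (e1.1 ⟨h2, h3⟩)

theorem adj_of_swap {y z : {S : Finset (Fin n) // S.card = k}} {t s : Fin n} (ht : t ∈ y.1)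
    (hs : s ∉ y.1) (hz : z.1 = insert s (y.1.erase t)) : (johnson n k).Adj y z := by
  rw [jadj_iff, hz]
  have := swap_sdiff y.1 ht hs
  simp only [ht, hs, if_true, if_false, Finset.sdiff_self, Finset.card_empty] at this
  simpa using this

/-- Johnson graphs are distance-regular, `c i = i ^ 2`, `b i = (k - i) (n - k - i)`. -/
theorem johnson_dr (hne : k ≤ n) : IsDistanceRegular (johnson n k) := by
  refine ⟨?_, fun i => (k - i) * (n - (k + i)), fun i => i * i, ?_⟩
  · have : Nonempty {S : Finset (Fin n) // S.card = k} := by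
      obtain ⟨S, hS⟩ := Finset.exists_subset_card_eq (s := (Finset.univ : Finset (Fin n)))
        (by simpa using hne)
      exact ⟨⟨S, hS.2⟩⟩
    exact { preconnected := fun u v => jdist.1 u v }
  · intro x y
    simp only [jdist.2]
    have hcomm := sdiff_card_comm x y
    constructor
    · have hset : {z | (johnson n k).Adj y z ∧ (x.1 \ z.1).card + 1 = (x.1 \ y.1).card}
          = {z | ∃ t ∈ y.1 \ x.1, ∃ s ∈ x.1 \ y.1, z.1 = insert s (y.1.erase t)} := by
        ext z
        simp only [Set.mem_ofPred_eq, Finset.mem_sdiff]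
        constructor
        · rintro ⟨h1, h2⟩
          obtain ⟨t, ht, s, hs, hz⟩ := jnbr y z h1
          have := swap_sdiff x.1 ht hs
          rw [hz] at h2
          by_cases hsx : s ∈ x.1 <;> by_cases htx : t ∈ x.1 <;>
            simp only [hsx, htx, if_true, if_false] at this
          · omega
          · exact ⟨t, ⟨ht, htx⟩, s, ⟨hsx, hs⟩, hz⟩
          · omega
          · omega
        · rintro ⟨t, ⟨ht, htx⟩, s, ⟨hsx, hs⟩, hz⟩
          refine ⟨adj_of_swap ht hs hz, ?_⟩
          have := swap_sdiff x.1 ht hs
          simp only [hsx, htx, if_true, if_false] at this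
          rw [hz]
          omega
      rw [hset, swap_count y _ _ Finset.sdiff_subset Finset.sdiff_disjoint, ← hcomm]
    · have hset : {z | (johnson n k).Adj y z ∧ (x.1 \ z.1).card = (x.1 \ y.1).card + 1}
          = {z | ∃ t ∈ y.1 ∩ x.1, ∃ s ∈ (x.1 ∪ y.1)ᶜ, z.1 = insert s (y.1.erase t)} := by
        ext z
        simp only [Set.mem_ofPred_eq, Finset.mem_inter, Finset.mem_compl, Finset.mem_union, not_or]
        constructor
        · rintro ⟨h1, h2⟩
          obtain ⟨t, ht, s, hs, hz⟩ := jnbr y z h1
          have := swap_sdiff x.1 ht hs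
          rw [hz] at h2
          by_cases hsx : s ∈ x.1 <;> by_cases htx : t ∈ x.1 <;>
            simp only [hsx, htx, if_true, if_false] at this
          · omega
          · omega
          · exact ⟨t, ⟨ht, htx⟩, s, ⟨hsx, hs⟩, hz⟩
          · omega
        · rintro ⟨t, ⟨ht, htx⟩, s, ⟨hsx, hs⟩, hz⟩
          refine ⟨adj_of_swap ht hs hz, ?_⟩
          have := swap_sdiff x.1 ht hs
          simp only [hsx, htx, if_true, if_false] at this
          rw [hz]
          omega
      rw [hset, swap_count y _ _ Finset.inter_subset_left]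
      · have h1 : (y.1 ∩ x.1).card = k - (x.1 \ y.1).card := by
          have h' : (y.1 \ x.1).card + (y.1 ∩ x.1).card = y.1.card :=
            Finset.card_sdiff_add_card_inter _ _
          have := y.2
          omega
        have h2 : ((x.1 ∪ y.1)ᶜ).card = n - (k + (x.1 \ y.1).card) := by
          rw [Finset.card_compl, Fintype.card_fin]
          have : (x.1 ∪ y.1).card = k + (x.1 \ y.1).card := by
            have h3 : (x.1 \ y.1).card + y.1.card = (x.1 ∪ y.1).card :=
              Finset.card_sdiff_add_card _ _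
            have := y.2
            omega
          rw [this]
        rw [h1, h2]
      · rw [Finset.disjoint_left]
        intro a ha hay
        simp only [Finset.mem_compl, Finset.mem_union, not_or] at ha
        exact ha.2 hay

end Q156.DM
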