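import Pool.Agent.Q156.DM.Mate

/-!
# The mate as a family of sign vectors with orthogonal coordinates
-/

set_option autoImplicit false

namespace Q156.DM

open Finset

/-- sign -/
def sg (b : Bool) : ℤ := if b then -1 else 1

/-- characters of the layers -/
def K (i : Fin 4) (a : Bool × Bool) : ℤ :=
  if i = 0 then 1 else if i = 1 then sg a.1 else if i = 2 then sg a.2 else sg a.1 * sg a.2

/-- sign vector of a vertex -/
def sv (p : (Bool × Bool) × Word) : Fin 4 ⊕ Fin 12 → ℤ
  | Sum.inl i => K i p.1
  | Sum.inr j => sg (p.2 j)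

theorem sg_sq (b : Bool) : sg b * sg b = 1 := by cases b <;> rfl

/-! sums over even words -/

theorem sum_flip (g : Word → ℤ) {i k : Fin 12} (h : i ≠ k) :
    ∑ y ∈ Ev, g y = ∑ y ∈ Ev, g (flip y i k) := by
  refine Finset.sum_nbij' (fun y => flip y i k) (fun y => flip y i k) ?_ ?_ ?_ ?_ ?_
  · intro y hy; exact flip_mem hy h
  · intro y hy; exact flip_mem hy h
  · intro y _; exact flip_flip y i k
  · intro y _; exact flip_flip y i k
  · intro y _; simp only [flip_flip]

theorem sum_zero_of (g : Word → ℤ) {i k : Fin 12} (h : i ≠ k)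
    (hg : ∀ y, g (flip y i k) = - g y) : ∑ y ∈ Ev, g y = 0 := by
  have := sum_flip g h
  simp_rw [hg] at this
  rw [Finset.sum_neg_distrib] at this
  omega

theorem sg_flip_left (y : Word) (i k : Fin 12) : sg (flip y i k i) = - sg (y i) := by
  unfold flip sg
  cases y i <;> simp

theorem sg_flip_ne (y : Word) {i k j : Fin 12} (h1 : j ≠ i) (h2 : j ≠ k) :
    sg (flip y i k j) = sg (y j) := by
  unfold flip
  simp [h1, h2]

theorem exists_ne (i j : Fin 12) : ∃ k : Fin 12, k ≠ i ∧ k ≠ j := by
  revert i j
  decide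

theorem Ev_one (i : Fin 12) : ∑ y ∈ Ev, sg (y i) = 0 := by
  obtain ⟨k, hk, -⟩ := exists_ne i i
  exact sum_zero_of _ (Ne.symm hk) fun y => sg_flip_left y i k

theorem Ev_two {i j : Fin 12} (h : i ≠ j) : ∑ y ∈ Ev, sg (y i) * sg (y j) = 0 := by
  obtain ⟨k, hk, hk'⟩ := exists_ne i j
  refine sum_zero_of _ (Ne.symm hk) fun y => ?_
  rw [sg_flip_left, sg_flip_ne y h.symm hk'.symm]
  ring

/-- change one digit -/
def flip1 (y : Word) : Word := fun j => xor (y j) (decide (j = 0))

theorem par_flip1 (y : Word) : par (flip1 y) = par y + 1 := by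
  have e : ∀ j, (if flip1 y j then (1 : ZMod 2) else 0)
      = (if y j then 1 else 0) + (if j = 0 then 1 else 0) := by
    intro j
    unfold flip1
    by_cases h1 : j = 0
    · cases y j <;> simp [h1]
      decide
    · cases y j <;> simp [h1]
  unfold par
  simp_rw [e]
  rw [Finset.sum_add_distrib, Finset.sum_ite_eq' Finset.univ 0]
  simp

theorem card_Ev : Ev.card = 2048 := by
  have h1 : Ev.card = (Finset.univ.filter fun y : Word => ¬ par y = 0).card := by
    refine Finset.card_nbij' flip1 flip1 ?_ ?_ ?_ ?_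
    · intro y hy
      rw [Finset.mem_coe, Ev, Finset.mem_filter] at hy
      rw [Finset.mem_coe, Finset.mem_filter]
      refine ⟨Finset.mem_univ _, ?_⟩
      rw [par_flip1, hy.2]
      decide
    · intro y hy
      rw [Finset.mem_coe, Finset.mem_filter] at hy
      rw [Finset.mem_coe, Ev, Finset.mem_filter]
      refine ⟨Finset.mem_univ _, ?_⟩
      rw [par_flip1]
      obtain ⟨-, hy⟩ := hy
      revert hy
      generalize par y = a
      revert a
      decide
    · intro y _
      funext j
      unfold flip1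
      cases y j <;> cases (decide (j = 0)) <;> rfl
    · intro y _
      funext j
      unfold flip1
      cases y j <;> cases (decide (j = 0)) <;> rfl
  have h2 : Ev.card + (Finset.univ.filter fun y : Word => ¬ par y = 0).card
      = (Finset.univ : Finset Word).card := by
    rw [Ev]
    exact Finset.card_filter_add_card_filter_not _
  have h3 : (Finset.univ : Finset Word).card = 4096 := by
    rw [Finset.card_univ, Fintype.card_fun]
    simp
  omega

/-! sums over deleted words -/

theorem Del_sum (a : Bool × Bool) (g : Word → ℤ) :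
    ∑ y ∈ Del a, g y = ((L46 a).map fun m => g (word m)).sum := by
  unfold Del
  rw [List.sum_toFinset _ (nodup_all a), List.map_map]
  rfl

theorem Del_card : ∀ a, ((L46 a).map fun _ => (1 : ℤ)).sum = 46 := by decide +kernel

theorem Del_one : ∀ a, ∀ i : Fin 12, ((L46 a).map fun m => sg (word m i)).sum = 0 := by
  decide +kernel

theorem Del_two : ∀ i j : Fin 12, i ≠ j →
    ((L46 (false, false)).map fun m => sg (word m i) * sg (word m j)).sum
    + ((L46 (false, true)).map fun m => sg (word m i) * sg (word m j)).sum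
    + ((L46 (true, false)).map fun m => sg (word m i) * sg (word m j)).sum
    + ((L46 (true, true)).map fun m => sg (word m i) * sg (word m j)).sum = 0 := by
  decide +kernel

/-- sum over the vertices -/
theorem sumV (F : (Bool × Bool) × Word → ℤ) :
    ∑ v : V1, F v.1 = ∑ a, (∑ y ∈ Ev, F (a, y) - ∑ y ∈ Del a, F (a, y)) := by
  have h1 : ∑ v : V1, F v.1 = ∑ p : (Bool × Bool) × Word,
      if p.2 ∈ Ev ∧ p.2 ∉ Del p.1 then F p else 0 := by
    rw [← Finset.sum_filter]
    exact (Finset.sum_subtype _ (by intro p; simp) F).symm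
  rw [h1, Fintype.sum_prod_type]
  refine Finset.sum_congr rfl fun a _ => ?_
  rw [← Finset.sum_sdiff_eq_sub (Del_sub a), ← Finset.sum_filter]
  refine Finset.sum_congr ?_ fun _ _ => rfl
  ext y
  simp

theorem Ksum : ∀ i j : Fin 4, ∑ a : Bool × Bool, K i a * K j a = if i = j then 4 else 0 := by
  decide

theorem K1 : ∀ i : Fin 4, ∑ a : Bool × Bool, K i a = if i = 0 then 4 else 0 := by
  decide

theorem gramZ (i j : Fin 4 ⊕ Fin 12) :
    ∑ v : V1, sv v.1 i * sv v.1 j = if i = j then 8008 else 0 := by
  rw [sumV fun p => sv p i * sv p j]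
  have hc : ∀ (a : Bool × Bool) (c : ℤ), ∑ y ∈ Ev, c - ∑ y ∈ Del a, c = c * 2002 := by
    intro a c
    have e1 : ∑ y ∈ Ev, c = c * 2048 := by
      rw [Finset.sum_const, card_Ev, nsmul_eq_mul]
      push_cast
      ring
    have e2 : ∑ y ∈ Del a, c = c * 46 := by
      have := Del_sum a fun _ => 1
      rw [Del_card, Finset.sum_const, nsmul_eq_mul, mul_one] at this
      rw [Finset.sum_const, nsmul_eq_mul, this]
      ring
    rw [e1, e2]
    ring
  have ho : ∀ (a : Bool × Bool) (c : ℤ) (k : Fin 12),
      ∑ y ∈ Ev, c * sg (y k) - ∑ y ∈ Del a, c * sg (y k) = 0 := by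
    intro a c k
    rw [← Finset.mul_sum, ← Finset.mul_sum, Ev_one, Del_sum a fun y => sg (y k), Del_one]
    ring
  rcases i with i | i <;> rcases j with j | j
  · simp only [sv, hc]
    rw [← Finset.sum_mul, Ksum]
    by_cases h : i = j
    · simp [h]
    · simp [h]
  · simp only [sv, ho]
    simp
  · simp only [sv]
    have : ∀ a : Bool × Bool, ∑ y ∈ Ev, sg (y i) * K j a - ∑ y ∈ Del a, sg (y i) * K j a = 0 := by
      intro a
      have := ho a (K j a) i
      simp_rw [mul_comm (K j a)] at this
      exact this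
    simp_rw [this]
    simp
  · simp only [sv]
    by_cases h : i = j
    · subst h
      simp only [sg_sq, hc]
      simp
    · rw [if_neg (fun e => h (Sum.inr_injective e))]
      have e1 : ∀ a : Bool × Bool, ∑ y ∈ Ev, sg (y i) * sg (y j) - ∑ y ∈ Del a, sg (y i) * sg (y j)
          = - ((L46 a).map fun m => sg (word m i) * sg (word m j)).sum := by
        intro a
        rw [Ev_two h, Del_sum a fun y => sg (y i) * sg (y j)]
        ring
      simp_rw [e1]
      have := Del_two i j h
      rw [Fintype.sum_prod_type]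
      simp only [Fintype.sum_bool]
      linarith

theorem colZ (i : Fin 4 ⊕ Fin 12) : ∑ v : V1, sv v.1 i = if i = Sum.inl 0 then 8008 else 0 := by
  have := gramZ i (Sum.inl 0)
  simp only [sv, K, if_true, mul_one] at this
  exact this

theorem card_V1 : Fintype.card V1 = 8008 := by
  have := colZ (Sum.inl 0)
  simp only [sv, K, if_true] at this
  rw [Finset.sum_const, Finset.card_univ, nsmul_eq_mul, mul_one] at this
  exact_mod_cast this

theorem dotZ (u v : V1) : ∑ i, sv u.1 i * sv v.1 i = 16 - 4 * (mate.dist u v : ℤ) := by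
  rw [mdist.2, Fintype.sum_sum_type]
  simp only [sv]
  have h1 : ∀ a b : Bool × Bool, ∑ i, K i a * K i b = if a = b then 4 else 0 := by decide
  have h2 : ∑ j, sg (u.1.2 j) * sg (v.1.2 j) = 12 - 2 * (hammingDist u.1.2 v.1.2 : ℤ) := by
    have h3 : ∀ j, sg (u.1.2 j) * sg (v.1.2 j)
        = 1 - 2 * (if u.1.2 j ≠ v.1.2 j then (1 : ℤ) else 0) := by
      intro j
      cases u.1.2 j <;> cases v.1.2 j <;> simp [sg]
    simp_rw [h3]
    rw [Finset.sum_sub_distrib, ← Finset.mul_sum, hammingDist, Finset.card_filter]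
    push_cast
    simp
  rw [h1, h2]
  have h4 := ham_even u.2.1 v.2.1
  unfold d1
  by_cases h : u.1.1 = v.1.1
  · rw [if_pos h, if_pos h]
    omega
  · rw [if_neg h, if_neg h]
    omega

end Q156.DM
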