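import Pool.Agent.Q156.DM.Spec

/-!
# The mate: a product of `K₄` and a halved 12-cube with 184 vertices deleted
-/

set_option autoImplicit false

namespace Q156.DM

open Finset

/-- binary words of length 12 -/
abbrev Word := Fin 12 → Bool

/-- binary digits -/
def word (m : ℕ) : Word := fun i => m.testBit i

/-- 40 words deleted in all the four layers -/
def R40 : List ℕ := [325, 455, 585, 650, 780, 1040, 1170, 1495, 1560, 2015, 2145, 2210, 2340, 2795,
  2990, 3315, 3380, 3705, 3965, 4030, 3717, 3591, 3465, 3402, 3276, 3024, 2898, 2583, 2520, 2079,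
  1953, 1890, 1764, 1323, 1134, 819, 756, 441, 189, 126]

/-- 6 further words deleted in each layer -/
def Q6 : Bool × Bool → List ℕ
  | (false, false) => [0, 1300, 1755, 2535, 2925, 3770]
  | (false, true) => [195, 910, 1885, 2600, 3185, 3510]
  | (true, false) => [4032, 2772, 2331, 1575, 1197, 378]
  | (true, true) => [3843, 3150, 2205, 1512, 945, 630]

/-- the deleted words of a layer -/
def L46 (a : Bool × Bool) : List ℕ := R40 ++ Q6 a

/-- the deleted words of a layer -/
def Del (a : Bool × Bool) : Finset Word := ((L46 a).map word).toFinset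

/-- parity -/
def par (y : Word) : ZMod 2 := ∑ j, if y j then 1 else 0

/-- words of even weight -/
def Ev : Finset Word := Finset.univ.filter fun y => par y = 0

/-- change two digits -/
def flip (y : Word) (i k : Fin 12) : Word := fun j => xor (y j) (decide (j = i ∨ j = k))

theorem par_flip (y : Word) {i k : Fin 12} (h : i ≠ k) : par (flip y i k) = par y := by
  have e : ∀ j, (if flip y i k j then (1 : ZMod 2) else 0)
      = (if y j then 1 else 0) + ((if j = i then 1 else 0) + (if j = k then 1 else 0)) := by
    intro j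
    unfold flip
    by_cases h1 : j = i
    · have h2 : j ≠ k := fun e => h (h1.symm.trans e)
      cases y j <;> simp [h1, h] <;> decide
    · by_cases h2 : j = k
      · cases y j <;> simp [h2, h.symm] <;> decide
      · cases y j <;> simp [h1, h2]
  unfold par
  simp_rw [e]
  rw [Finset.sum_add_distrib, Finset.sum_add_distrib, Finset.sum_ite_eq' Finset.univ i,
    Finset.sum_ite_eq' Finset.univ k]
  simp only [Finset.mem_univ, if_true]
  have : (1 : ZMod 2) + 1 = 0 := by decide
  rw [this, add_zero]

theorem flip_mem {y : Word} (hy : y ∈ Ev) {i k : Fin 12} (h : i ≠ k) : flip y i k ∈ Ev := by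
  rw [Ev, Finset.mem_filter] at *
  exact ⟨Finset.mem_univ _, by rw [par_flip y h]; exact hy.2⟩

theorem flip_flip (y : Word) (i k : Fin 12) : flip (flip y i k) i k = y := by
  funext j
  unfold flip
  cases y j <;> cases (decide (j = i ∨ j = k)) <;> rfl

theorem ham_par (y z : Word) : ((hammingDist y z : ℕ) : ZMod 2) = par y + par z := by
  unfold hammingDist par
  rw [Finset.card_filter, Nat.cast_sum, ← Finset.sum_add_distrib]
  refine Finset.sum_congr rfl fun j _ => ?_
  cases y j <;> cases z j <;> simp <;> decide

theorem ham_even {y z : Word} (hy : y ∈ Ev) (hz : z ∈ Ev) : hammingDist y z % 2 = 0 := by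
  rw [Ev, Finset.mem_filter] at hy hz
  have := ham_par y z
  rw [hy.2, hz.2, add_zero, ZMod.natCast_eq_zero_iff] at this
  omega

theorem ham_flip (u v : Word) {i k : Fin 12} (h : i ≠ k) (hi : u i ≠ v i) (hk : u k ≠ v k) :
    hammingDist u (flip v i k) + 2 = hammingDist u v := by
  unfold hammingDist
  have : (Finset.univ.filter fun j => u j ≠ flip v i k j)
      = ((Finset.univ.filter fun j => u j ≠ v j).erase i).erase k := by
    ext j
    simp only [Finset.mem_filter, Finset.mem_univ, true_and, Finset.mem_erase, flip]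
    by_cases h1 : j = i
    · subst h1
      have e : u j = !v j := by
        revert hi
        cases u j <;> cases v j <;> simp
      simp [e]
    · by_cases h2 : j = k
      · subst h2
        have e : u j = !v j := by
          revert hk
          cases u j <;> cases v j <;> simp
        simp [e]
      · simp [h1, h2]
  rw [this]
  have hi' : i ∈ Finset.univ.filter fun j => u j ≠ v j := by simp [hi]
  have hk' : k ∈ (Finset.univ.filter fun j => u j ≠ v j).erase i := by
    simp [hk, h.symm]
  have e1 := Finset.card_erase_add_one hk'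
  have e2 := Finset.card_erase_add_one hi'
  omega

theorem ham_flip_self (v : Word) {i k : Fin 12} (h : i ≠ k) : hammingDist (flip v i k) v = 2 := by
  have := ham_flip (flip v i k) v h (by unfold flip; cases v i <;> simp)
    (by unfold flip; cases v k <;> simp)
  rw [hammingDist_self] at this
  omega

/-- first position of a pair -/
def lo (s : Fin 6) : Fin 12 := ⟨s.1, by omega⟩

/-- second position of a pair -/
def hi (s : Fin 6) : Fin 12 := ⟨s.1 + 6, by omega⟩

/-- a linear code containing all deleted words -/
def Phi (y : Word) : Prop := ∀ s t : Fin 6, xor (y (lo s)) (y (hi s)) = xor (y (lo t)) (y (hi t))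

instance (y : Word) : Decidable (Phi y) := by unfold Phi; infer_instance

theorem pair_ex : ∀ j k : Fin 12, j ≠ k → (k.1 = (j.1 + 6) % 12 ∨ ∃ s t : Fin 6,
    xor (decide (lo s = j ∨ lo s = k)) (decide (hi s = j ∨ hi s = k)) = true ∧
    xor (decide (lo t = j ∨ lo t = k)) (decide (hi t = j ∨ hi t = k)) = false) := by
  decide +kernel

theorem phi_flip {y : Word} {j k : Fin 12} (h : j ≠ k) (h1 : Phi y) (h2 : Phi (flip y j k)) :
    k.1 = (j.1 + 6) % 12 := by
  rcases pair_ex j k h with h3 | ⟨s, t, hs, ht⟩
  · exact h3
  · exfalso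
    have e1 := h1 s t
    have e2 := h2 s t
    unfold flip at e2
    revert e1 e2 hs ht
    generalize decide (lo s = j ∨ lo s = k) = a1
    generalize decide (hi s = j ∨ hi s = k) = a2
    generalize decide (lo t = j ∨ lo t = k) = a3
    generalize decide (hi t = j ∨ hi t = k) = a4
    generalize y (lo s) = b1
    generalize y (hi s) = b2
    generalize y (lo t) = b3
    generalize y (hi t) = b4
    revert a1 a2 a3 a4 b1 b2 b3 b4
    decide

theorem tri (v : Word) {i j k : Fin 12} (hij : i ≠ j) (hik : i ≠ k) (hjk : j ≠ k)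
    (h1 : Phi (flip v i j)) (h2 : Phi (flip v i k)) (h3 : Phi (flip v j k)) : False := by
  have e2 : flip v i k = flip (flip v i j) j k := by
    funext l
    unfold flip
    by_cases hli : l = i
    · subst hli
      simp [hij, hik]
    · by_cases hlj : l = j
      · subst hlj
        simp [hjk, hli]
      · simp [hli, hlj]
  have e3 : flip v j k = flip (flip v i j) i k := by
    funext l
    unfold flip
    by_cases hli : l = i
    · subst hli
      simp [hij, hik]
    · by_cases hlj : l = j
      · subst hlj
        simp [hjk, hli]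
      · simp [hli, hlj]
  rw [e2] at h2
  rw [e3] at h3
  have a := phi_flip hjk h1 h2
  have b := phi_flip hik h1 h3
  apply hij
  apply Fin.ext
  have := i.2
  have := j.2
  omega

theorem phi_all : ∀ a, ∀ m ∈ L46 a, Phi (word m) := by decide +kernel

theorem par_all : ∀ a, ∀ m ∈ L46 a, par (word m) = 0 := by decide +kernel

theorem nodup_all : ∀ a, ((L46 a).map word).Nodup := by decide +kernel

theorem sep_all : ∀ a b, a ≠ b → ∀ m ∈ Q6 b, ∀ m' ∈ Q6 a,
    hammingDist (word m) (word m') ≠ 2 := by decide +kernel

theorem mem_Del {a : Bool × Bool} {y : Word} : y ∈ Del a ↔ ∃ m ∈ L46 a, word m = y := by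
  unfold Del
  simp

theorem Del_sub (a : Bool × Bool) : Del a ⊆ Ev := by
  intro y hy
  obtain ⟨m, hm, rfl⟩ := mem_Del.1 hy
  rw [Ev, Finset.mem_filter]
  exact ⟨Finset.mem_univ _, par_all a m hm⟩

theorem Del_phi {a : Bool × Bool} {y : Word} (hy : y ∈ Del a) : Phi y := by
  obtain ⟨m, hm, rfl⟩ := mem_Del.1 hy
  exact phi_all a m hm

/-- the words deleted in one layer only are far from those deleted in another layer -/
theorem Del_sep {a b : Bool × Bool} (hab : a ≠ b) {y z : Word} (hy : y ∈ Del b) (hy' : y ∉ Del a)
    (hz : z ∈ Del a) (hz' : z ∉ Del b) : hammingDist y z ≠ 2 := by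
  obtain ⟨m, hm, rfl⟩ := mem_Del.1 hy
  obtain ⟨m', hm', rfl⟩ := mem_Del.1 hz
  unfold L46 at hm hm'
  rw [List.mem_append] at hm hm'
  rcases hm with hm | hm
  · exact absurd (mem_Del.2 ⟨m, List.mem_append_left _ hm, rfl⟩) hy'
  · rcases hm' with hm' | hm'
    · exact absurd (mem_Del.2 ⟨m', List.mem_append_left _ hm', rfl⟩) hz'
    · exact sep_all a b hab m hm m' hm'

/-- the vertices -/
abbrev V1 := {p : (Bool × Bool) × Word // p.2 ∈ Ev ∧ p.2 ∉ Del p.1}

/-- the distance -/
def d1 (u v : V1) : ℕ := (if u.1.1 = v.1.1 then 0 else 1) + hammingDist u.1.2 v.1.2 / 2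

theorem d1_comm (u v : V1) : d1 u v = d1 v u := by
  unfold d1
  rw [hammingDist_comm]
  congr 1
  by_cases h : u.1.1 = v.1.1
  · rw [if_pos h, if_pos h.symm]
  · rw [if_neg h, if_neg (fun e => h e.symm)]

/-- The mate. -/
def mate : SimpleGraph V1 where
  Adj u v := d1 u v = 1
  symm := ⟨fun u v h => by rw [d1_comm]; exact h⟩
  loopless := ⟨fun u h => by simp [d1] at h⟩

theorem d1_tri (u v w : V1) : d1 u w ≤ d1 u v + d1 v w := by
  unfold d1
  have h1 := hammingDist_triangle u.1.2 v.1.2 w.1.2
  have h2 := ham_even u.2.1 v.2.1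
  have h3 := ham_even v.2.1 w.2.1
  have h4 := ham_even u.2.1 w.2.1
  have h5 : (if u.1.1 = w.1.1 then 0 else 1) ≤
      (if u.1.1 = v.1.1 then 0 else 1) + (if v.1.1 = w.1.1 then 0 else 1) := by
    by_cases e1 : u.1.1 = v.1.1
    · rw [e1]
      simp
    · rw [if_neg e1]
      split_ifs <;> omega
  omega

theorem step (u v : V1) (huv : u ≠ v) : ∃ w, mate.Adj w v ∧ d1 u w + 1 = d1 u v := by
  have he := ham_even u.2.1 v.2.1
  rcases Nat.lt_or_ge 2 (hammingDist u.1.2 v.1.2) with h2 | h2
  · -- three different positions
    obtain ⟨i, j, k, hi, hj, hk, hij, hik, hjk⟩ := Finset.two_lt_card_iff.1 h2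
    simp only [Finset.mem_filter, Finset.mem_univ, true_and] at hi hj hk
    have key : ∀ a b : Fin 12, a ≠ b → u.1.2 a ≠ v.1.2 a → u.1.2 b ≠ v.1.2 b →
        flip v.1.2 a b ∉ Del v.1.1 → ∃ w, mate.Adj w v ∧ d1 u w + 1 = d1 u v := by
      intro a b hab ha hb hd
      refine ⟨⟨(v.1.1, flip v.1.2 a b), flip_mem v.2.1 hab, hd⟩, ?_, ?_⟩
      · change d1 _ _ = 1
        unfold d1
        rw [ham_flip_self v.1.2 hab]
        simp
      · unfold d1
        have := ham_flip u.1.2 v.1.2 hab ha hb
        simp only
        omega
    by_cases d1' : flip v.1.2 i j ∈ Del v.1.1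
    · by_cases d2' : flip v.1.2 i k ∈ Del v.1.1
      · by_cases d3' : flip v.1.2 j k ∈ Del v.1.1
        · exact (tri v.1.2 hij hik hjk (Del_phi d1') (Del_phi d2') (Del_phi d3')).elim
        · exact key j k hjk hj hk d3'
      · exact key i k hik hi hk d2'
    · exact key i j hij hi hj d1'
  · by_cases ha : u.1.1 = v.1.1
    · have h0 : hammingDist u.1.2 v.1.2 ≠ 0 := by
        intro h
        exact huv (Subtype.ext (Prod.ext ha (hammingDist_eq_zero.1 h)))
      refine ⟨u, ?_, ?_⟩
      · change d1 _ _ = 1
        unfold d1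
        rw [if_pos ha]
        omega
      · unfold d1
        rw [if_pos ha, if_pos rfl, hammingDist_self]
        omega
    · by_cases h0 : hammingDist u.1.2 v.1.2 = 0
      · refine ⟨u, ?_, ?_⟩
        · change d1 _ _ = 1
          unfold d1
          rw [if_neg ha]
          omega
        · unfold d1
          rw [if_neg ha, if_pos rfl, hammingDist_self]
          omega
      · have h2' : hammingDist u.1.2 v.1.2 = 2 := by omega
        by_cases d1' : u.1.2 ∈ Del v.1.1
        · by_cases d2' : v.1.2 ∈ Del u.1.1
          · exact absurd h2' (Del_sep ha d1' u.2.2 d2' v.2.2)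
          · refine ⟨⟨(u.1.1, v.1.2), v.2.1, d2'⟩, ?_, ?_⟩
            · change d1 _ _ = 1
              unfold d1
              simp [ha]
            · unfold d1
              simp [ha]
              omega
        · refine ⟨⟨(v.1.1, u.1.2), u.2.1, d1'⟩, ?_, ?_⟩
          · change d1 _ _ = 1
            unfold d1
            simp [h2']
          · unfold d1
            simp [ha, h2']

theorem mdist : (∀ u v, mate.Reachable u v) ∧ ∀ u v, mate.dist u v = d1 u v := by
  apply dist_of mate d1
  · intro u
    simp [d1]
  · intro u v w h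
    have h1 := d1_tri u v w
    have h2 : d1 v w = 1 := h
    omega
  · exact step

/-! ### non-regularity -/

theorem six_ok : ∀ m ∈ [6, 5, 10, 3, 9], par (word m) = 0 ∧ ∀ m' ∈ L46 (false, false),
    word m' ≠ word m := by decide +kernel

theorem five_ok : ∀ m' ∈ L46 (false, true), word m' ≠ word 5 := by decide +kernel

theorem mem_ok {m : ℕ} (hm : m ∈ [6, 5, 10, 3, 9]) :
    word m ∈ Ev ∧ word m ∉ Del (false, false) := by
  refine ⟨?_, ?_⟩
  · rw [Ev, Finset.mem_filter]
    exact ⟨Finset.mem_univ _, (six_ok m hm).1⟩
  · rw [mem_Del]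
    rintro ⟨m', hm', he⟩
    exact (six_ok m hm).2 m' hm' he

/-- vertices of the layer 0 -/
def vx (m : ℕ) (hm : m ∈ [6, 5, 10, 3, 9]) : V1 := ⟨((false, false), word m), mem_ok hm⟩

/-- a vertex of another layer -/
def vy : V1 := ⟨((false, true), word 5), (mem_ok (by decide)).1, by
  rw [mem_Del]
  rintro ⟨m', hm', he⟩
  exact five_ok m' hm' he⟩

theorem mate_not_dr : ¬ IsDistanceRegular mate := by
  rintro ⟨-, b, c, h⟩
  have x : V1 := vx 6 (by decide)
  have e1 := (h (vx 6 (by decide)) vy).1
  have e2 := (h (vx 6 (by decide)) (vx 9 (by decide))).1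
  have f1 : mate.dist (vx 6 (by decide)) vy = 2 := by
    rw [mdist.2]
    unfold d1 vx vy
    simp only
    have : hammingDist (word 6) (word 5) = 2 := by decide +kernel
    rw [this]
    decide
  have f2 : mate.dist (vx 6 (by decide)) (vx 9 (by decide)) = 2 := by
    rw [mdist.2]
    unfold d1 vx
    simp only
    have : hammingDist (word 6) (word 9) = 4 := by decide +kernel
    rw [this]
    decide
  rw [f1] at e1
  rw [f2] at e2
  have g1 : {z | mate.Adj vy z ∧ mate.dist (vx 6 (by decide)) z + 1 = 2}.ncard ≤ 2 := by
    have hsub : {z | mate.Adj vy z ∧ mate.dist (vx 6 (by decide)) z + 1 = 2} ⊆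
        Subtype.val ⁻¹' ({((false, false), word 5), ((false, true), word 6)} :
          Set ((Bool × Bool) × Word)) := by
      rintro ⟨⟨a, q⟩, hq1, hq2⟩ ⟨h1, h2⟩
      rw [mdist.2] at h2
      have h1' : d1 vy ⟨(a, q), hq1, hq2⟩ = 1 := h1
      unfold d1 vy at h1'
      unfold d1 vx at h2
      simp only at h1' h2
      have p1 := ham_even (mem_ok (m := 5) (by decide)).1 hq1
      have p2 := ham_even (mem_ok (m := 6) (by decide)).1 hq1
      simp only at p1 p2
      simp only [Set.mem_preimage, Set.mem_insert_iff, Set.mem_singleton_iff, Prod.mk.injEq]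
      by_cases ha : (false, true) = a
      · rw [if_pos ha] at h1'
        have ha' : ¬ ((false, false) = a) := by rw [← ha]; decide
        rw [if_neg ha'] at h2
        right
        refine ⟨ha.symm, ?_⟩
        have : hammingDist (word 6) q = 0 := by omega
        exact (hammingDist_eq_zero.1 this).symm
      · rw [if_neg ha] at h1'
        have h5 : hammingDist (word 5) q = 0 := by omega
        have hq : word 5 = q := hammingDist_eq_zero.1 h5
        by_cases ha' : (false, false) = a
        · left
          exact ⟨ha'.symm, hq.symm⟩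
        · rw [if_neg ha'] at h2
          have h6 : hammingDist (word 6) q = 0 := by omega
          have hq' : word 6 = q := hammingDist_eq_zero.1 h6
          rw [← hq] at hq'
          exact absurd hq' (by decide +kernel)
    calc _ ≤ (Subtype.val ⁻¹' ({((false, false), word 5), ((false, true), word 6)} :
          Set ((Bool × Bool) × Word)) : Set V1).ncard := Set.ncard_le_ncard hsub (Set.toFinite _)
      _ ≤ ({((false, false), word 5), ((false, true), word 6)} :
          Set ((Bool × Bool) × Word)).ncard := by
          apply Set.ncard_le_ncard_of_injOn Subtype.val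
          · intro z hz; exact hz
          · exact Subtype.val_injective.injOn
      _ ≤ 2 := by
          refine (Set.ncard_insert_le _ _).trans ?_
          rw [Set.ncard_singleton]
  have g2 : 3 ≤ {z | mate.Adj (vx 9 (by decide)) z ∧
      mate.dist (vx 6 (by decide)) z + 1 = 2}.ncard := by
    have hsub : ({vx 5 (by decide), vx 10 (by decide), vx 3 (by decide)} : Set V1) ⊆
        {z | mate.Adj (vx 9 (by decide)) z ∧ mate.dist (vx 6 (by decide)) z + 1 = 2} := by
      have hh : ∀ m ∈ [5, 10, 3], hammingDist (word 9) (word m) = 2 ∧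
          hammingDist (word 6) (word m) = 2 := by decide +kernel
      have key : ∀ m (hm : m ∈ [6, 5, 10, 3, 9]), m ∈ [5, 10, 3] →
          vx m hm ∈ {z | mate.Adj (vx 9 (by decide)) z ∧
            mate.dist (vx 6 (by decide)) z + 1 = 2} := by
        intro m hm hm'
        obtain ⟨k1, k2⟩ := hh m hm'
        refine ⟨?_, ?_⟩
        · change d1 _ _ = 1
          unfold d1 vx
          simp only
          rw [k1]
          decide
        · rw [mdist.2]
          unfold d1 vx
          simp only
          rw [k2]
          decide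
      rintro z (rfl | rfl | rfl)
      · exact key 5 _ (by decide)
      · exact key 10 _ (by decide)
      · exact key 3 _ (by decide)
    have h3 : ({vx 5 (by decide), vx 10 (by decide), vx 3 (by decide)} : Set V1).ncard = 3 := by
      have ne : ∀ m m' (hm : m ∈ [6, 5, 10, 3, 9]) (hm' : m' ∈ [6, 5, 10, 3, 9]),
          word m ≠ word m' → vx m hm ≠ vx m' hm' := by
        intro m m' hm hm' hne he
        apply hne
        have := congrArg (fun v : V1 => v.1.2) he
        exact this
      rw [Set.ncard_eq_three]
      refine ⟨_, _, _, ne 5 10 _ _ (by decide +kernel), ne 5 3 _ _ (by decide +kernel),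
        ne 10 3 _ _ (by decide +kernel), rfl⟩
    exact h3.symm.le.trans (Set.ncard_le_ncard hsub (Set.toFinite _))
  rw [e1] at g1
  rw [e2] at g2
  omega

end Q156.DM
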