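import Mathlib

/-!
# Distance spectra of families of sign vectors

A distance matrix of the form `α - β * (Gram matrix of sign vectors with orthogonal coordinates)`
has a characteristic polynomial that depends only on the sizes.
-/

set_option autoImplicit false

namespace Q156.DM

open Matrix Polynomial

/-- The distance matrix of a graph, over the reals. -/
noncomputable def distMatrix {V : Type} (G : SimpleGraph V) : Matrix V V ℝ :=
  Matrix.of fun u v => (G.dist u v : ℝ)

/-- The distance spectrum: the multiset of the eigenvalues (with multiplicity) of the distance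
matrix. -/
noncomputable def distSpectrum {V : Type} [Fintype V] [DecidableEq V] (G : SimpleGraph V) :
    Multiset ℝ := (distMatrix G).charpoly.roots

/-- Distance-regular graphs: connected, and for vertices `x`, `y` at distance `i` the number of
neighbours of `y` at distance `i - 1` from `x` and the number of neighbours of `y` at distance
`i + 1` from `x` depend only on `i`. -/
def IsDistanceRegular {V : Type} (G : SimpleGraph V) : Prop :=
  G.Connected ∧ ∃ b c : ℕ → ℕ, ∀ x y : V,
    {z | G.Adj y z ∧ G.dist x z + 1 = G.dist x y}.ncard = c (G.dist x y) ∧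
    {z | G.Adj y z ∧ G.dist x z = G.dist x y + 1}.ncard = b (G.dist x y)

/-- The Johnson graph `J(n, k)`: the `k`-element subsets of an `n`-element set, two of them being
adjacent when they have exactly `k - 1` elements in common. -/
def johnson (n k : ℕ) : SimpleGraph {S : Finset (Fin n) // S.card = k} where
  Adj S T := S ≠ T ∧ (S.1 ∩ T.1).card + 1 = k
  symm := ⟨fun S T h => ⟨h.1.symm, by rw [Finset.inter_comm]; exact h.2⟩⟩
  loopless := ⟨fun S h => h.1 rfl⟩

theorem dist_of {V : Type} (G : SimpleGraph V) (d : V → V → ℕ) (h0 : ∀ u, d u u = 0)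
    (h1 : ∀ u v w, G.Adj v w → d u w ≤ d u v + 1)
    (h2 : ∀ u v, u ≠ v → ∃ w, G.Adj w v ∧ d u w + 1 = d u v) :
    (∀ u v, G.Reachable u v) ∧ ∀ u v, G.dist u v = d u v := by
  have hup : ∀ n u v, d u v = n → ∃ p : G.Walk u v, p.length = n := by
    intro n
    induction n with
    | zero =>
      intro u v h
      by_cases huv : u = v
      · subst huv
        exact ⟨SimpleGraph.Walk.nil, rfl⟩
      · obtain ⟨w, -, hw⟩ := h2 u v huv
        omega
    | succ n ih =>
      intro u v h
      have huv : u ≠ v := by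
        intro e
        subst e
        rw [h0] at h
        omega
      obtain ⟨w, hw1, hw2⟩ := h2 u v huv
      obtain ⟨p, hp⟩ := ih u w (by omega)
      exact ⟨p.concat hw1, by rw [SimpleGraph.Walk.length_concat, hp]⟩
  have hlow : ∀ u v (p : G.Walk u v) (x : V), d x v ≤ d x u + p.length := by
    intro u v p
    induction p with
    | nil => intro x; simp
    | cons h p ih =>
      intro x
      have e1 := h1 x _ _ h
      have e2 := ih x
      rw [SimpleGraph.Walk.length_cons]
      omega
  have hr : ∀ u v, G.Reachable u v := fun u v => ⟨(hup _ u v rfl).choose⟩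
  refine ⟨hr, fun u v => ?_⟩
  apply le_antisymm
  · obtain ⟨p, hp⟩ := hup _ u v rfl
    rw [← hp]
    exact SimpleGraph.dist_le p
  · obtain ⟨p, hp⟩ := (hr u v).exists_walk_length_eq_dist
    have := hlow u v p u
    rw [h0] at this
    omega

/-- The characteristic polynomial of `α - β * Gram`. -/
theorem spec {V ι : Type} [Fintype V] [DecidableEq V] [Fintype ι] [DecidableEq ι]
    (σ : V → ι → ℝ) (n : ℝ) (hn : n ≠ 0)
    (hg : ∀ i j, ∑ v, σ v i * σ v j = if i = j then n else 0)
    (s : ι → ℝ) (hs : ∀ i, ∑ v, σ v i = s i) (h1 : ∀ v, ∑ i, s i * σ v i = n)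
    (hV : (Fintype.card V : ℝ) = n) (α β : ℝ) (D : Matrix V V ℝ)
    (hD : ∀ u v, D u v = α - β * ∑ i, σ u i * σ v i) :
    X ^ Fintype.card ι * D.charpoly = X ^ Fintype.card V *
      ((X ^ Fintype.card ι - (α * n) • X ^ (Fintype.card ι - 1) : ℝ[X]).comp (X + C (β * n))) := by
  have hss : ∑ i, s i * s i = n * n := by
    calc ∑ i, s i * s i = ∑ i, ∑ v, s i * σ v i := by
          refine Finset.sum_congr rfl fun i _ => ?_
          rw [← Finset.mul_sum, hs]
      _ = ∑ v, ∑ i, s i * σ v i := Finset.sum_comm
      _ = ∑ v : V, n := Finset.sum_congr rfl fun v _ => h1 v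
      _ = n * n := by
          rw [Finset.sum_const, Finset.card_univ, nsmul_eq_mul, hV]
  let A : Matrix V ι ℝ := Matrix.of fun v i => σ v i
  let B : Matrix ι V ℝ := Matrix.of fun i v => α / n * s i - β * σ v i
  have hDA : D = A * B := by
    ext u v
    rw [hD, Matrix.mul_apply]
    simp only [A, B, Matrix.of_apply]
    have : ∑ i, σ u i * (α / n * s i - β * σ v i)
        = α / n * (∑ i, s i * σ u i) - β * ∑ i, σ u i * σ v i := by
      rw [Finset.mul_sum, Finset.mul_sum, ← Finset.sum_sub_distrib]
      refine Finset.sum_congr rfl fun i _ => ?_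
      ring
    rw [this, h1]
    field_simp
  have hBA : B * A = vecMulVec (fun i => α / n * s i) s - scalar ι (β * n) := by
    ext i j
    rw [Matrix.mul_apply]
    simp only [A, B, Matrix.of_apply, Matrix.sub_apply, vecMulVec_apply]
    have : ∑ v, (α / n * s i - β * σ v i) * σ v j
        = α / n * s i * (∑ v, σ v j) - β * ∑ v, σ v i * σ v j := by
      rw [Finset.mul_sum, Finset.mul_sum, ← Finset.sum_sub_distrib]
      refine Finset.sum_congr rfl fun v _ => ?_
      ring
    rw [this, hs, hg]
    by_cases h : i = j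
    · subst h
      simp
    · simp [h, Matrix.scalar_apply]
  rw [hDA, charpoly_mul_comm', hBA, charpoly_sub_scalar, charpoly_vecMulVec]
  have hdot : (fun i => α / n * s i) ⬝ᵥ s = α * n := by
    simp only [dotProduct]
    have : ∑ i, α / n * s i * s i = α / n * ∑ i, s i * s i := by
      rw [Finset.mul_sum]
      refine Finset.sum_congr rfl fun i _ => ?_
      ring
    rw [this, hss]
    field_simp
  rw [hdot]

theorem cospectral {V W ι κ : Type} [Fintype V] [DecidableEq V] [Fintype W] [DecidableEq W]
    [Fintype ι] [DecidableEq ι] [Fintype κ] [DecidableEq κ]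
    (hVW : Fintype.card V = Fintype.card W) (hικ : Fintype.card ι = Fintype.card κ)
    (n : ℝ) (hn : n ≠ 0) (hV : (Fintype.card V : ℝ) = n) (α β : ℝ)
    (σ : V → ι → ℝ) (τ : W → κ → ℝ)
    (hg : ∀ i j, ∑ v, σ v i * σ v j = if i = j then n else 0)
    (hg' : ∀ i j, ∑ v, τ v i * τ v j = if i = j then n else 0)
    (s : ι → ℝ) (hs : ∀ i, ∑ v, σ v i = s i) (h1 : ∀ v, ∑ i, s i * σ v i = n)
    (t : κ → ℝ) (ht : ∀ i, ∑ v, τ v i = t i) (h1' : ∀ v, ∑ i, t i * τ v i = n)
    (D : Matrix V V ℝ) (E : Matrix W W ℝ)
    (hD : ∀ u v, D u v = α - β * ∑ i, σ u i * σ v i)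
    (hE : ∀ u v, E u v = α - β * ∑ i, τ u i * τ v i) :
    D.charpoly = E.charpoly := by
  have e1 := spec σ n hn hg s hs h1 hV α β D hD
  have e2 := spec τ n hn hg' t ht h1' (by rw [← hVW]; exact hV) α β E hE
  rw [← hVW, ← hικ] at e2
  exact (isRegular_X_pow (R := ℝ) (Fintype.card ι)).left (e1.trans e2.symm)

end Q156.DM
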